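import Pool.Agent.Lib.MP_d71b33_lc_helper31.PO1

/-!
# Comparison of the potentials of different copies (MP_d71b33_lc)
-/

namespace Pool.Agent.Bfly

namespace Sys

variable {n : ℕ} (S : Sys n)

theorem EE_mem {Y : Core n} (hY : Y ∈ S.cores) {u : Node n} (hu : S.memN Y u) : S.EE Y u = 0 :=
  S.EE_eq_zero hY (r := 0) (Nat.zero_le _) (by simpa using hu.1) (by simpa using hu.2.1)

/-- next to the wall of the zone the boundary term is large -/
theorem EE_wall {Y : Core n} {u v : Node n} (h : (butterfly n).Adj u v) (hu : S.onZone Y u) :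
    S.As Y.i + 2 * S.D Y.i ≤ S.EE Y v + kap S.g := by
  have h0 := adj_lev h
  rcases hu.2 with ⟨h1, h2⟩ | ⟨h1, h2⟩
  · have h3 : S.As Y.i + 2 * S.D Y.i - kap S.g * (S.lev (S.ze Y) - v.2.val) ≤ S.EE Y v := by
      unfold EE
      rw [if_neg h2]
      exact le_max_right _ _
    have h4 : kap S.g * (S.lev (S.ze Y) - v.2.val) ≤ kap S.g * 1 :=
      Nat.mul_le_mul_left _ (by omega)
    omega
  · have h3 : S.As Y.i + 2 * S.D Y.i - kap S.g * (v.2.val - S.lev (S.zs Y)) ≤ S.EE Y v := by
      unfold EE
      rw [if_neg h2]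
      exact le_max_left _ _
    have h4 : kap S.g * (v.2.val - S.lev (S.zs Y)) ≤ kap S.g * 1 :=
      Nat.mul_le_mul_left _ (by omega)
    omega

theorem kdC_lip {P : Core n} {u v : Node n} (h : (butterfly n).Adj u v) :
    kap S.g * S.dC P u ≤ kap S.g * S.dC P v + kap S.g := by
  have := Nat.mul_le_mul_left (kap S.g) (S.dC_lip (Q := P) h)
  rwa [Nat.mul_add, Nat.mul_one] at this

/-- home `v` from the T-structure of a core `Y` of largest scale containing `u` -/
theorem MT_MH {Y : Core n} (hY : Y ∈ S.cores) {u v : Node n} (h : (butterfly n).Adj u v)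
    (hu : S.memN Y u) : S.MT Y u + S.D Y.i ≤ S.MH v + 2 * kap S.g := by
  have hE := S.EE_mem hY hu
  have h1 := S.MH_ge (v := v) hY
  have h2 := S.kdC_lip (P := Y) h.symm
  rw [S.dC_mem hu] at h2
  have h3 := S.D_le_As Y.i
  have key : S.MT Y u ≤ S.MH v + 2 * kap S.g - S.D Y.i := by
    apply S.MT_le
    · omega
    · intro P hP hi
      have h4 := S.MH_ge (v := v) hP
      have h5 := S.kdC_lip (P := P) h.symm
      have h6 := S.As_lt hi
      omega
  omega

/-- import from a home -/
theorem MH_MT {Y : Core n} (hY : Y ∈ S.cores) {u v : Node n} (h : (butterfly n).Adj u v)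
    (hu : S.onZone Y u) (hv : S.hosted Y v) : S.MH u + S.D Y.i ≤ S.MT Y v + 2 * kap S.g := by
  have hE := S.EE_wall h hu
  have hM := S.EE_le_MT Y v
  have key : S.MH u ≤ S.MT Y v + 2 * kap S.g - S.D Y.i := by
    apply S.MH_le
    intro P hP
    by_cases hi : Y.i < P.i
    · have h4 := S.MT_ge Y v hP hi
      have h5 := S.kdC_lip (P := P) h.symm
      have h6 := S.As_lt hi
      omega
    · have h6 := S.As_mono (show P.i ≤ Y.i by omega)
      omega
  omega

/-- import from a core `X` of smaller or equal scale -/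
theorem MT_import {X Y : Core n} (hX : X ∈ S.cores) (hY : Y ∈ S.cores) (hXY : X.i ≤ Y.i)
    {u v : Node n} (h : (butterfly n).Adj u v) (hu : S.onZone Y u) (huX : S.memN X u)
    (hv : S.hosted Y v) : S.MT X u + S.D Y.i ≤ S.MT Y v + 2 * kap S.g := by
  have hE := S.EE_wall h hu
  have hM := S.EE_le_MT Y v
  have hX0 := S.EE_mem hX huX
  have key : S.MT X u ≤ S.MT Y v + 2 * kap S.g - S.D Y.i := by
    apply S.MT_le
    · omega
    · intro P hP hi'
      by_cases hi : Y.i < P.i
      · have h4 := S.MT_ge Y v hP hi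
        have h5 := S.kdC_lip (P := P) h.symm
        have h6 := S.As_lt hi
        omega
      · have h6 := S.As_mono (show P.i ≤ Y.i by omega)
        omega
  omega

/-- export from `Y` to the T-structure of a core `X` of smaller scale -/
theorem MT_export {X Y : Core n} (hX : X ∈ S.cores) (hY : Y ∈ S.cores) (hXY : X.i < Y.i)
    {u v : Node n} (h : (butterfly n).Adj u v) (hu : S.memN Y u) :
    S.MT Y u + S.D Y.i ≤ S.MT X v + 2 * kap S.g := by
  have hE := S.EE_mem hY hu
  have h1 := S.MT_ge X v hY hXY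
  have h2 := S.kdC_lip (P := Y) h.symm
  rw [S.dC_mem hu] at h2
  have h3 := S.As_lt hXY
  have key : S.MT Y u ≤ S.MT X v + 2 * kap S.g - S.D Y.i := by
    apply S.MT_le
    · omega
    · intro P hP hi
      have h4 := S.MT_ge X v hP (hXY.trans hi)
      have h5 := S.kdC_lip (P := P) h.symm
      have h6 := S.As_lt hi
      omega
  omega

end Sys

end Pool.Agent.Bfly
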