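import Pool.Agent.Lib.MP_d71b33_lc_h91.SysDefs

/-!
# Potentials of the copies (MP_d71b33_lc)
-/

namespace Pool.Agent.Bfly

namespace Sys

variable {n : ℕ} (S : Sys n)

private theorem lev_add_le' {k l : ℕ} (h : k ≤ l) (hl : l ≤ S.m) :
    S.lev k + S.g * (l - k) ≤ S.lev l := by
  induction l, h using Nat.le_induction with
  | base => simp
  | succ l hkl ih =>
    have h1 := ih (by omega)
    have h2 := S.lev_lo l (by omega)
    have h3 : l + 1 - k = (l - k) + 1 := by omega
    rw [h3, Nat.mul_add]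
    omega

private theorem h_pos (i : ℕ) : 0 < S.h i := by
  have h1 := S.h0_big
  have h2 := S.M_big
  have h3 : 0 < S.M := by
    have : 0 < cbg S.g := by unfold cbg; omega
    omega
  unfold h
  positivity

private theorem cbg_pos : 0 < cbg S.g := by unfold cbg; omega

private theorem cbg_ge : 40 ≤ cbg S.g := by unfold cbg; omega

theorem D_pos (i : ℕ) : 0 < S.D i := by
  have h1 := S.h_pos i
  have h2 := S.cbg_pos
  unfold D
  positivity

theorem As_succ (i : ℕ) : S.As (i + 1) = S.As i + 4 * S.D (i + 1) := by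
  unfold As
  rw [Finset.sum_range_succ _ (i + 1)]
  ring

theorem As_mono {i j : ℕ} (h : i ≤ j) : S.As i ≤ S.As j := by
  induction j, h using Nat.le_induction with
  | base => exact le_rfl
  | succ j hij ih =>
    rw [As_succ]
    omega

theorem As_lt {i j : ℕ} (h : i < j) : S.As i + 4 * S.D j ≤ S.As j := by
  obtain ⟨j, rfl⟩ : ∃ k, j = k + 1 := ⟨j - 1, by omega⟩
  rw [As_succ]
  have := S.As_mono (show i ≤ j by omega)
  omega

theorem D_le_As (i : ℕ) : 4 * S.D i ≤ S.As i := by
  cases i with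
  | zero => simp [As]
  | succ i => rw [As_succ]; omega

/-- `As i ≤ 137 cbg h_i` -/
theorem As_le (i : ℕ) : S.As i ≤ 137 * (cbg S.g * S.h i) := by
  have hM := S.M_big
  have hc := S.cbg_ge
  induction i with
  | zero =>
    simp only [As, D, zero_add, Finset.range_one, Finset.sum_singleton]
    nlinarith [S.h_pos 0, S.cbg_pos]
  | succ i ih =>
    rw [As_succ]
    have h1 : S.h (i + 1) = S.h i * S.M := by
      unfold h; ring
    have h2 : 640 ≤ S.M := by omega
    have h3 : cbg S.g * S.h i * 640 ≤ cbg S.g * S.h (i + 1) := by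
      rw [h1, ← mul_assoc]
      exact Nat.mul_le_mul_left _ h2
    unfold D
    rw [mul_assoc]
    omega

theorem en_nonempty (Q : Core n) (v : Node n) : {r | S.en Q r v}.Nonempty := by
  refine ⟨S.lev Q.s + n, ?_, ?_, ?_⟩
  · omega
  · have := v.2.isLt
    omega
  · intro j hj
    have := j.isLt
    omega

theorem dC_spec (Q : Core n) (v : Node n) : S.en Q (S.dC Q v) v :=
  Nat.sInf_mem (S.en_nonempty Q v)

theorem dC_le {Q : Core n} {v : Node n} {r : ℕ} (h : S.en Q r v) : S.dC Q v ≤ r :=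
  Nat.sInf_le h

theorem dC_mem {Q : Core n} {v : Node n} (h : S.memN Q v) : S.dC Q v = 0 := by
  have : S.dC Q v ≤ 0 := S.dC_le ⟨by simpa using h.1, by simpa using h.2.1, by simpa using h.2.2⟩
  omega

theorem dC_lip {Q : Core n} {u v : Node n} (h : (butterfly n).Adj u v) :
    S.dC Q u ≤ S.dC Q v + 1 := by
  obtain ⟨h1, h2, h3⟩ := S.dC_spec Q v
  apply S.dC_le
  set r := S.dC Q v
  rcases h with h | h
  · obtain ⟨ha, hb⟩ := h
    refine ⟨by omega, by omega, ?_⟩
    intro j hj
    rw [← h3 j (by omega), hb j (by omega)]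
  · obtain ⟨ha, hb⟩ := h
    refine ⟨by omega, by omega, ?_⟩
    intro j hj
    rw [← h3 j (by omega), hb j (by omega)]

theorem MH_bdd (v : Node n) :
    S.As S.top ∈ {μ | ∀ P ∈ S.cores, S.As P.i - kap S.g * S.dC P v ≤ μ} := by
  intro P hP
  exact (Nat.sub_le _ _).trans (S.As_mono (S.core_top P hP))

theorem MH_ge {v : Node n} {P : Core n} (hP : P ∈ S.cores) :
    S.As P.i ≤ S.MH v + kap S.g * S.dC P v := by
  have h1 : S.MH v ∈ {μ | ∀ P ∈ S.cores, S.As P.i - kap S.g * S.dC P v ≤ μ} :=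
    Nat.sInf_mem ⟨_, S.MH_bdd v⟩
  have h2 := h1 P hP
  omega

theorem MH_le {v : Node n} {μ : ℕ} (h : ∀ P ∈ S.cores, S.As P.i ≤ μ + kap S.g * S.dC P v) :
    S.MH v ≤ μ := by
  apply Nat.sInf_le
  intro P hP
  have := h P hP
  omega

theorem MT_bdd (Q : Core n) (v : Node n) :
    S.As S.top + S.EE Q v ∈ {μ | S.EE Q v ≤ μ ∧ ∀ P ∈ S.cores, Q.i < P.i →
    (S.As P.i - S.As Q.i) + S.EE Q v - kap S.g * S.dC P v ≤ μ} := by
  refine ⟨by omega, ?_⟩
  intro P hP _
  have := S.As_mono (S.core_top P hP)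
  omega

theorem EE_le_MT (Q : Core n) (v : Node n) : S.EE Q v ≤ S.MT Q v :=
  (Nat.sInf_mem ⟨_, S.MT_bdd Q v⟩ : S.MT Q v ∈ _).1

theorem MT_ge (Q : Core n) (v : Node n) {P : Core n} (hP : P ∈ S.cores) (hi : Q.i < P.i) :
    (S.As P.i - S.As Q.i) + S.EE Q v ≤ S.MT Q v + kap S.g * S.dC P v := by
  have h1 : S.MT Q v ∈ {μ | S.EE Q v ≤ μ ∧ ∀ P ∈ S.cores, Q.i < P.i →
      (S.As P.i - S.As Q.i) + S.EE Q v - kap S.g * S.dC P v ≤ μ} :=
    Nat.sInf_mem ⟨_, S.MT_bdd Q v⟩
  have h2 := h1.2 P hP hi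
  omega

theorem MT_le {Q : Core n} {v : Node n} {μ : ℕ} (h0 : S.EE Q v ≤ μ)
    (h : ∀ P ∈ S.cores, Q.i < P.i →
      (S.As P.i - S.As Q.i) + S.EE Q v ≤ μ + kap S.g * S.dC P v) : S.MT Q v ≤ μ := by
  apply Nat.sInf_le
  refine ⟨h0, ?_⟩
  intro P hP hi
  have := h P hP hi
  omega

theorem adj_lev {u v : Node n} (h : (butterfly n).Adj u v) :
    u.2.val ≤ v.2.val + 1 ∧ v.2.val ≤ u.2.val + 1 := by
  rcases h with h | h <;> have := h.1 <;> omega

/-- home from home -/
theorem MH_lip {u v : Node n} (h : (butterfly n).Adj u v) : S.MH u ≤ S.MH v + kap S.g := by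
  apply S.MH_le
  intro P hP
  have h1 := S.MH_ge (v := v) hP
  have h2 := Nat.mul_le_mul_left (kap S.g) (S.dC_lip (Q := P) h.symm)
  rw [Nat.mul_add] at h2
  omega

theorem EE_lip {Q : Core n} {u v : Node n} (h : (butterfly n).Adj u v) :
    S.EE Q u ≤ S.EE Q v + kap S.g := by
  have h0 := adj_lev h
  have h1 : kap S.g * (v.2.val - S.lev (S.zs Q)) ≤
      kap S.g * (u.2.val - S.lev (S.zs Q)) + kap S.g := by
    have := Nat.mul_le_mul_left (kap S.g)
      (show v.2.val - S.lev (S.zs Q) ≤ (u.2.val - S.lev (S.zs Q)) + 1 by omega)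
    rwa [Nat.mul_add, Nat.mul_one] at this
  have h2 : kap S.g * (S.lev (S.ze Q) - v.2.val) ≤
      kap S.g * (S.lev (S.ze Q) - u.2.val) + kap S.g := by
    have := Nat.mul_le_mul_left (kap S.g)
      (show S.lev (S.ze Q) - v.2.val ≤ (S.lev (S.ze Q) - u.2.val) + 1 by omega)
    rwa [Nat.mul_add, Nat.mul_one] at this
  unfold EE
  apply max_le
  · refine le_trans ?_ (Nat.add_le_add_right (le_max_left _ _) _)
    split_ifs <;> omega
  · refine le_trans ?_ (Nat.add_le_add_right (le_max_right _ _) _)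
    split_ifs <;> omega

/-- within a T-structure -/
theorem MT_lip {Q : Core n} (hQ : Q ∈ S.cores) {u v : Node n} (h : (butterfly n).Adj u v) :
    S.MT Q u ≤ S.MT Q v + 2 * kap S.g := by
  have h0 := S.EE_lip (Q := Q) h
  have h1 := S.EE_le_MT Q v
  apply S.MT_le
  · omega
  · intro P hP hi
    have h3 := S.MT_ge Q v hP hi
    have h2 := Nat.mul_le_mul_left (kap S.g) (S.dC_lip (Q := P) h.symm)
    rw [Nat.mul_add] at h2
    omega

/-- distance of a core to the walls of its zone -/
theorem zs_dist {Q : Core n} (hQ : Q ∈ S.cores) (h : Q.s ≠ 0) :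
    S.lev (S.zs Q) + 20 * S.h Q.i ≤ S.lev Q.s := by
  have h1 := S.core_lt Q hQ
  have h2 := S.core_le Q hQ
  have h3 : 4 * S.h Q.i ≤ Q.s := by
    rcases S.core_s Q hQ with h' | ⟨_, h'⟩
    · exact absurd h' h
    · refine le_trans ?_ h'
      exact Nat.mul_le_mul_right _ (by unfold csm; omega)
  have h4 : S.zs Q = Q.s - 4 * S.h Q.i := by unfold zs; rw [if_neg h]
  have h5 := S.lev_add_le' (k := S.zs Q) (l := Q.s) (by omega) (by omega)
  have h6 : Q.s - S.zs Q = 4 * S.h Q.i := by omega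
  rw [h6] at h5
  have h7 := Nat.mul_le_mul_right (4 * S.h Q.i) S.five_le_g
  omega

theorem ze_dist {Q : Core n} (hQ : Q ∈ S.cores) (h : Q.e ≠ S.m) :
    S.lev Q.e + 20 * S.h Q.i ≤ S.lev (S.ze Q) := by
  have h1 := S.core_lt Q hQ
  have h2 := S.core_le Q hQ
  have h3 : Q.e + 4 * S.h Q.i ≤ S.m := by
    rcases S.core_e Q hQ with h' | ⟨_, h'⟩
    · exact absurd h' h
    · refine le_trans ?_ h'
      exact Nat.add_le_add_left (Nat.mul_le_mul_right _ (by unfold csm; omega)) _
  have h4 : S.ze Q = Q.e + 4 * S.h Q.i := by unfold ze; rw [if_neg h]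
  have h5 := S.lev_add_le' (k := Q.e) (l := S.ze Q) (by omega) (by omega)
  have h6 : S.ze Q - Q.e = 4 * S.h Q.i := by omega
  rw [h6] at h5
  have h7 := Nat.mul_le_mul_right (4 * S.h Q.i) S.five_le_g
  omega

theorem As_D_le (i d : ℕ) (hd : S.h i ≤ d) : S.As i + 2 * S.D i ≤ kap S.g * d := by
  have h1 := S.As_le i
  have h2 := Nat.mul_le_mul_left (kap S.g) hd
  refine le_trans ?_ h2
  unfold kap D
  nlinarith [h1]

/-- near the core the boundary term vanishes -/
theorem EE_eq_zero {Q : Core n} (hQ : Q ∈ S.cores) {v : Node n} {r : ℕ} (hr : r ≤ 19 * S.h Q.i)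
    (h1 : S.lev Q.s ≤ v.2.val + r) (h2 : v.2.val ≤ S.lev Q.e + r) : S.EE Q v = 0 := by
  have hb : ∀ d, S.h Q.i ≤ d → S.As Q.i + 2 * S.D Q.i - kap S.g * d = 0 := by
    intro d hd
    have := S.As_D_le Q.i d hd
    omega
  have : S.EE Q v ≤ 0 := by
    unfold EE
    apply max_le
    · split_ifs with h
      · exact le_rfl
      · have := S.zs_dist hQ h
        rw [hb _ (by omega)]
    · split_ifs with h
      · exact le_rfl
      · have := S.ze_dist hQ h
        rw [hb _ (by omega)]
  omega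

/-- every role has a copy of potential 0 -/
theorem exists_zero (v : Node n) :
    (S.freeN v ∧ S.MH v = 0) ∨ ∃ Q ∈ S.cores, S.hosted Q v ∧ S.MT Q v = 0 := by
  by_cases hne : ∃ i, ∃ Q ∈ S.cores, Q.i = i ∧ kap S.g * S.dC Q v < S.As Q.i
  · right
    -- the largest scale
    have hbd : ∀ i, (∃ Q ∈ S.cores, Q.i = i ∧ kap S.g * S.dC Q v < S.As Q.i) → i ≤ S.top := by
      rintro i ⟨Q, hQ, rfl, _⟩
      exact S.core_top Q hQ
    classical
    obtain ⟨i0, hi0⟩ := hne
    have hfin : {i | ∃ Q ∈ S.cores, Q.i = i ∧ kap S.g * S.dC Q v < S.As Q.i}.Finite :=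
      (Set.finite_Iic S.top).subset (fun i hi => hbd i hi)
    obtain ⟨i, ⟨Q, hQ, hQi, hlt⟩, hmax⟩ := hfin.exists_maximal ⟨i0, hi0⟩
    have hmax' : ∀ P ∈ S.cores, Q.i < P.i → S.As P.i ≤ kap S.g * S.dC P v := by
      intro P hP hi
      by_contra hcon
      have := hmax (y := P.i) ⟨P, hP, rfl, by omega⟩ (by show i ≤ P.i; omega)
      have : P.i ≤ i := this
      omega
    obtain ⟨e1, e2, e3⟩ := S.dC_spec Q v
    have hr : S.dC Q v < S.h Q.i := by
      have h1 := S.As_le Q.i
      have h2 : kap S.g * S.dC Q v < kap S.g * S.h Q.i := by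
        refine lt_of_lt_of_le hlt (h1.trans ?_)
        unfold kap
        rw [mul_assoc]
        omega
      exact lt_of_mul_lt_mul_left h2 (Nat.zero_le _)
    set r := S.dC Q v with hrdef
    have hE : S.EE Q v = 0 := S.EE_eq_zero hQ (r := r) (by omega) e1 e2
    refine ⟨Q, hQ, ⟨?_, ?_, ?_, ?_⟩, ?_⟩
    · intro j hj
      apply e3
      rcases hj with hj | hj
      · left
        by_cases h : Q.s = 0
        · have : S.zs Q = 0 := by unfold zs; rw [if_pos h]
          rw [this, S.lev_zero] at hj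
          omega
        · have := S.zs_dist hQ h
          omega
      · by_cases h : Q.e = S.m
        · have : S.ze Q = S.m := by unfold ze; rw [if_pos h]
          rw [this, S.lev_m] at hj
          have := j.isLt
          omega
        · right
          have := S.ze_dist hQ h
          omega
    · by_cases h : Q.s = 0
      · exact Or.inl h
      · right
        have := S.zs_dist hQ h
        omega
    · by_cases h : Q.e = S.m
      · exact Or.inl h
      · right
        have := S.ze_dist hQ h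
        omega
    · intro P hP hi hmem
      have h1 := hmax' P hP hi
      rw [S.dC_mem hmem] at h1
      have h2 := S.D_le_As P.i
      have h3 := S.D_pos P.i
      omega
    · have : S.MT Q v ≤ 0 := by
        apply S.MT_le
        · omega
        · intro P hP hi
          have := hmax' P hP hi
          omega
      omega
  · left
    push Not at hne
    refine ⟨?_, ?_⟩
    · intro P hP hmem
      have h1 := hne P.i P hP rfl
      rw [S.dC_mem hmem] at h1
      have h2 := S.D_le_As P.i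
      have h3 := S.D_pos P.i
      omega
    · have : S.MH v ≤ 0 := by
        apply S.MH_le
        intro P hP
        have := hne P.i P hP rfl
        omega
      omega

end Sys

end Pool.Agent.Bfly
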